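import Mathlib
import Pool.Agent.H933R3.Ball

set_option autoImplicit false

/-!
# A 3-ball with 11 vertices and 35 facets, and its joins with simplices

Families of finite sets of natural numbers below 16 are given by bit masks.  A list of moves
(bistellar moves, stellar subdivisions and their inverses) connects the facets `Bl` with a single
3-simplex; the same moves work for the join with any simplex.
-/

namespace Pool.Agent.H549LC

open Finset Pool.Agent.Helper175.NS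

/-- join with a fixed set -/
def jn (A0 : Finset ℕ) (L : Finset (Finset ℕ)) : Finset (Finset ℕ) := L.image (fun F => F ∪ A0)

theorem mem_jn {A0 : Finset ℕ} {L : Finset (Finset ℕ)} {A : Finset ℕ} :
    A ∈ jn A0 L ↔ ∃ F ∈ L, F ∪ A0 = A := mem_image

theorem sub_join {A0 ρ F : Finset ℕ} (hρ : Disjoint ρ A0) : ρ ⊆ F ∪ A0 ↔ ρ ⊆ F := by
  constructor
  · intro h x hx
    rcases mem_union.1 (h hx) with h1 | h1
    · exact h1
    · exact absurd h1 (disjoint_left.1 hρ hx)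
  · exact fun h => h.trans subset_union_left

theorem star_jn (A0 : Finset ℕ) (L : Finset (Finset ℕ)) (ρ : Finset ℕ) (v : ℕ)
    (hρ : Disjoint ρ A0) : star (jn A0 L) ρ v = jn A0 (star L ρ v) := by
  have key : ∀ F : Finset ℕ, ∀ z ∈ ρ,
      insert v ((F ∪ A0).erase z) = insert v (F.erase z) ∪ A0 := by
    intro F z hz
    have h1 : z ∉ A0 := disjoint_left.1 hρ hz
    ext n
    simp only [mem_insert, mem_erase, mem_union]
    constructor
    · rintro (h2 | ⟨h2, h3 | h3⟩)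
      · exact Or.inl (Or.inl h2)
      · exact Or.inl (Or.inr ⟨h2, h3⟩)
      · exact Or.inr h3
    · rintro ((h2 | ⟨h2, h3⟩) | h2)
      · exact Or.inl h2
      · exact Or.inr ⟨h2, Or.inl h3⟩
      · refine Or.inr ⟨?_, Or.inr h2⟩
        rintro rfl
        exact h1 h2
  ext A
  rw [mem_star]
  constructor
  · rintro (⟨h1, h2⟩ | ⟨F', h1, h2, z, hz, rfl⟩)
    · obtain ⟨F, hF, rfl⟩ := mem_jn.1 h1
      exact mem_jn.2 ⟨F, mem_star.2 (Or.inl ⟨hF, fun h => h2 ((sub_join hρ).2 h)⟩), rfl⟩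
    · obtain ⟨F, hF, rfl⟩ := mem_jn.1 h1
      exact mem_jn.2 ⟨insert v (F.erase z), mem_star.2 (Or.inr ⟨F, hF, (sub_join hρ).1 h2, z, hz,
        rfl⟩), (key F z hz).symm⟩
  · intro hA
    obtain ⟨G, hG, rfl⟩ := mem_jn.1 hA
    rcases mem_star.1 hG with ⟨h1, h2⟩ | ⟨F, h1, h2, z, hz, rfl⟩
    · exact Or.inl ⟨mem_jn.2 ⟨G, h1, rfl⟩, fun h => h2 ((sub_join hρ).1 h)⟩
    · exact Or.inr ⟨F ∪ A0, mem_jn.2 ⟨F, h1, rfl⟩, (sub_join hρ).2 h2, z, hz, key F z hz⟩

/-! ### bit masks -/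

/-- the set with a given bit mask -/
def dk (m : ℕ) : Finset ℕ := (range 16).filter (fun i => m.testBit i = true)

theorem mem_dk {m n : ℕ} : n ∈ dk m ↔ n < 16 ∧ m.testBit n = true := by
  rw [dk, mem_filter, mem_range]

/-- the family with given bit masks -/
def dL (l : List ℕ) : Finset (Finset ℕ) := (l.map dk).toFinset

theorem mem_dL {l : List ℕ} {A : Finset ℕ} : A ∈ dL l ↔ ∃ m ∈ l, dk m = A := by
  rw [dL, List.mem_toFinset, List.mem_map]

/-- the list of the elements -/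
def bts (m : ℕ) : List ℕ := (List.range 16).filter (fun i => m.testBit i)

theorem mem_bts {m n : ℕ} : n ∈ bts m ↔ n ∈ dk m := by
  rw [bts, List.mem_filter, List.mem_range, mem_dk]

/-- stellar subdivision -/
def stB (l : List ℕ) (ρ v : ℕ) : List ℕ :=
  l.flatMap (fun m => if m &&& ρ = ρ then (bts ρ).map (fun z => (m ^^^ 2 ^ z) ||| 2 ^ v) else [m])

theorem bit_lt {m i : ℕ} (hm : m < 2 ^ 16) (h : m.testBit i = true) : i < 16 := by
  by_contra h6
  rw [Nat.testBit_eq_false_of_lt (hm.trans_le (Nat.pow_le_pow_right (by norm_num) (by omega)))] at h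
  exact absurd h (by decide)

theorem land_iff {m ρ : ℕ} (hρ : ρ < 2 ^ 16) : m &&& ρ = ρ ↔ dk ρ ⊆ dk m := by
  constructor
  · intro h n hn
    rw [mem_dk] at hn ⊢
    refine ⟨hn.1, ?_⟩
    have h1 := congrArg (fun k => Nat.testBit k n) h
    simp only [Nat.testBit_land, hn.2, Bool.and_true] at h1
    exact h1
  · intro h
    apply Nat.eq_of_testBit_eq
    intro i
    rw [Nat.testBit_land]
    cases h1 : ρ.testBit i with
    | false => simp
    | true =>
      have h2 := h (mem_dk.2 ⟨bit_lt hρ h1, h1⟩)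
      rw [mem_dk] at h2
      simp [h2.2]

theorem dk_swap {m z v : ℕ} (hz : z ∈ dk m) (hv : v < 16) (hzv : z ≠ v) :
    dk ((m ^^^ 2 ^ z) ||| 2 ^ v) = insert v ((dk m).erase z) := by
  rw [mem_dk] at hz
  ext n
  rw [mem_insert, mem_erase, mem_dk, mem_dk, Nat.testBit_lor, Nat.testBit_xor,
    Nat.testBit_two_pow, Nat.testBit_two_pow]
  by_cases h1 : n = v
  · subst h1
    simp [hv]
  · by_cases h2 : n = z
    · subst h2
      simp [hz.2, h1, Ne.symm h1]
    · simp [h1, h2, Ne.symm h1, Ne.symm h2]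

theorem dL_stB (l : List ℕ) (ρ v : ℕ) (hρ : ρ < 2 ^ 16) (hv : v < 16) (hvρ : ρ.testBit v = false) :
    dL (stB l ρ v) = star (dL l) (dk ρ) v := by
  have hv' : v ∉ dk ρ := by
    rw [mem_dk]
    rintro ⟨_, h⟩
    rw [hvρ] at h
    exact absurd h (by decide)
  ext A
  rw [mem_dL, mem_star]
  constructor
  · rintro ⟨m', hm', rfl⟩
    rw [stB, List.mem_flatMap] at hm'
    obtain ⟨m, hm, h1⟩ := hm'
    split_ifs at h1 with h2
    · rw [List.mem_map] at h1
      obtain ⟨z, hz, rfl⟩ := h1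
      rw [mem_bts] at hz
      have h3 := (land_iff hρ).1 h2
      right
      refine ⟨dk m, mem_dL.2 ⟨m, hm, rfl⟩, h3, z, hz, ?_⟩
      rw [dk_swap (h3 hz) hv (fun h => hv' (by rw [← h]; exact hz))]
    · rw [List.mem_singleton] at h1
      subst h1
      left
      exact ⟨mem_dL.2 ⟨m', hm, rfl⟩, fun h => h2 ((land_iff hρ).2 h)⟩
  · rintro (⟨h1, h2⟩ | ⟨F, h1, h2, z, hz, rfl⟩)
    · obtain ⟨m, hm, rfl⟩ := mem_dL.1 h1
      refine ⟨m, ?_, rfl⟩
      rw [stB, List.mem_flatMap]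
      refine ⟨m, hm, ?_⟩
      rw [if_neg (fun h => h2 ((land_iff hρ).1 h))]
      exact List.mem_singleton_self _
    · obtain ⟨m, hm, rfl⟩ := mem_dL.1 h1
      refine ⟨(m ^^^ 2 ^ z) ||| 2 ^ v, ?_, ?_⟩
      · rw [stB, List.mem_flatMap]
        refine ⟨m, hm, ?_⟩
        rw [if_pos ((land_iff hρ).2 h2), List.mem_map]
        exact ⟨z, mem_bts.2 hz, rfl⟩
      · rw [dk_swap (h2 hz) hv (fun h => hv' (by rw [← h]; exact hz))]

/-- the same family -/
def sameL (l l' : List ℕ) : Bool :=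
  l.all (fun m => l'.contains m) && l'.all (fun m => l.contains m)

theorem dL_of_sameL {l l' : List ℕ} (h : sameL l l' = true) : dL l = dL l' := by
  rw [sameL, Bool.and_eq_true, List.all_eq_true, List.all_eq_true] at h
  ext A
  rw [mem_dL, mem_dL]
  constructor
  · rintro ⟨m, hm, rfl⟩
    exact ⟨m, by simpa using h.1 m hm, rfl⟩
  · rintro ⟨m, hm, rfl⟩
    exact ⟨m, by simpa using h.2 m hm, rfl⟩

/-- a stellar subdivision of `l` at `ρ` with the vertex `v` is allowed -/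
def okS (l : List ℕ) (ρ v : ℕ) : Bool :=
  l.all (fun m => !(m.testBit v)) && decide (ρ < 2 ^ 16) && decide (v < 16) && !(ρ.testBit v) &&
    decide (0 < ρ)

theorem star_step {l : List ℕ} {ρ v : ℕ} (h : okS l ρ v = true) (A0 : Finset ℕ)
    (hA : ∀ n ∈ A0, 16 ≤ n) :
    Nonempty (Sp (jn A0 (dL (stB l ρ v))) ≃ₜ Sp (jn A0 (dL l))) := by
  simp only [okS, Bool.and_eq_true, decide_eq_true_eq, List.all_eq_true, Bool.not_eq_true'] at h
  obtain ⟨⟨⟨⟨h1, h2⟩, h3⟩, h4⟩, h5⟩ := h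
  have hdis : Disjoint (dk ρ) A0 := by
    rw [disjoint_left]
    intro x hx hx'
    have := hA x hx'
    have := (mem_dk.1 hx).1
    omega
  have hv : v ∉ A0 := fun h => by have := hA v h; omega
  rw [dL_stB l ρ v h2 h3 h4, ← star_jn A0 (dL l) (dk ρ) v hdis]
  refine star_homeo (jn A0 (dL l)) (dk ρ) v ?_ ?_ ?_
  · obtain ⟨i, hi⟩ := Nat.exists_testBit_of_ne_zero (by omega : ρ ≠ 0)
    exact ⟨i, mem_dk.2 ⟨bit_lt h2 hi, hi⟩⟩
  · intro F hF
    obtain ⟨G, hG, rfl⟩ := mem_jn.1 hF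
    obtain ⟨m, hm, rfl⟩ := mem_dL.1 hG
    rw [mem_union, not_or, mem_dk]
    refine ⟨?_, hv⟩
    rintro ⟨_, h6⟩
    rw [h1 m hm] at h6
    exact absurd h6 (by decide)
  · rw [mem_dk]
    rintro ⟨_, h6⟩
    rw [h4] at h6
    exact absurd h6 (by decide)

/-- the family after a move: `0` bistellar, `1` stellar subdivision, `2` its inverse -/
def app (l : List ℕ) (o : ℕ × ℕ × ℕ) : List ℕ :=
  match o with
  | (0, ρ, ρ') => l.filter (fun m => !(decide (m &&& ρ = ρ))) ++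
      (bts ρ).map (fun z => (ρ ^^^ 2 ^ z) ||| ρ')
  | (1, ρ, v) => stB l ρ v
  | (_, ρ, v) => l.filter (fun m => !(m.testBit v)) ++
      (l.filter (fun m => m.testBit v && !(m.testBit ((bts ρ).headD 0)))).map
        (fun m => (m ^^^ 2 ^ v) ||| 2 ^ ((bts ρ).headD 0))

/-- the move is allowed -/
def okA (l : List ℕ) (o : ℕ × ℕ × ℕ) : Bool :=
  match o with
  | (0, ρ, ρ') => okS l ρ 15 && okS (app l o) ρ' 15 && sameL (stB l ρ 15) (stB (app l o) ρ' 15)
  | (1, ρ, v) => okS l ρ v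
  | (_, ρ, v) => okS (app l o) ρ v && sameL l (stB (app l o) ρ v)

theorem app_homeo {l : List ℕ} {o : ℕ × ℕ × ℕ} (h : okA l o = true) (A0 : Finset ℕ)
    (hA : ∀ n ∈ A0, 16 ≤ n) : Nonempty (Sp (jn A0 (dL l)) ≃ₜ Sp (jn A0 (dL (app l o)))) := by
  unfold okA at h
  split at h
  · rw [Bool.and_eq_true, Bool.and_eq_true] at h
    obtain ⟨⟨h1, h2⟩, h3⟩ := h
    obtain ⟨e1⟩ := star_step h1 A0 hA
    obtain ⟨e2⟩ := star_step h2 A0 hA
    rw [← dL_of_sameL h3] at e2
    exact ⟨e1.symm.trans e2⟩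
  · obtain ⟨e1⟩ := star_step h A0 hA
    exact ⟨e1.symm⟩
  · rw [Bool.and_eq_true] at h
    obtain ⟨e1⟩ := star_step h.1 A0 hA
    rw [← dL_of_sameL h.2] at e1
    exact ⟨e1⟩

/-- a chain of moves from `l` to `t` -/
def chB : List ℕ → List (ℕ × ℕ × ℕ) → List ℕ → Bool
  | l, [], t => sameL l t
  | l, o :: os, t => okA l o && chB (app l o) os t

theorem ch_homeo (A0 : Finset ℕ) (hA : ∀ n ∈ A0, 16 ≤ n) (os : List (ℕ × ℕ × ℕ)) :
    ∀ l t : List ℕ, chB l os t = true → Nonempty (Sp (jn A0 (dL l)) ≃ₜ Sp (jn A0 (dL t))) := by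
  induction os with
  | nil =>
    intro l t h
    rw [chB] at h
    rw [dL_of_sameL h]
    exact ⟨Homeomorph.refl _⟩
  | cons o os ih =>
    intro l t h
    rw [chB, Bool.and_eq_true] at h
    obtain ⟨e1⟩ := app_homeo h.1 A0 hA
    obtain ⟨e2⟩ := ih (app l o) t h.2
    exact ⟨e1.trans e2⟩

/-! ### the ball -/

/-- the facets of the ball, as bit masks -/
def Bl : List ℕ := [27, 29, 30, 54, 116, 147, 149, 178, 212, 297, 323, 329, 424, 523,
  526, 553, 680, 688, 712, 720, 771, 801, 816, 1037, 1091, 1097, 1122, 1136,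
  1155, 1186, 1328, 1440, 1548, 1608, 1616]

/-- the interior triangles -/
def ITl : List ℕ := [11, 13, 14, 19, 21, 22, 25, 26, 28, 41, 50, 52, 67, 73,
  84, 112, 131, 145, 146, 148, 162, 168, 176, 208, 259, 265, 289, 296,
  304, 321, 416, 515, 521, 522, 524, 545, 552, 560, 584, 592, 648, 656,
  672, 704, 769, 800, 1027, 1033, 1036, 1058, 1072, 1089, 1090, 1096, 1104, 1120,
  1154, 1184, 1312, 1544, 1600]

/-- the interior edges -/
def SBl : List ℕ := [3, 9, 10, 12, 17, 18, 20, 24, 33, 40, 48, 65, 80, 130,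
  144, 160, 257, 288, 513, 520, 544, 576, 640, 1026, 1032, 1056, 1088]

/-- the moves -/
def opsB : List (ℕ × ℕ × ℕ) := [(0, 33, 776), (0, 24, 7), (0, 40, 896), (0, 544, 400), (0, 10, 517),
  (0, 288, 1168), (0, 160, 1042), (0, 12, 1537), (0, 1056, 82), (0, 48, 70),
  (0, 70, 48), (2, 70, 5), (0, 17, 134), (0, 20, 194), (0, 1032, 577),
  (0, 18, 1216), (0, 80, 1664), (0, 9, 832), (1, 68, 11), (0, 194, 3072),
  (0, 1154, 2049), (0, 130, 2053), (2, 130, 11), (0, 1026, 193), (0, 144, 1792),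
  (1, 1028, 11), (0, 1537, 2112), (0, 577, 2304), (0, 769, 2050), (0, 513, 2054),
  (2, 513, 11), (1, 516, 11), (0, 515, 2304), (0, 259, 2112), (0, 67, 2176),
  (0, 3, 2180), (2, 3, 11), (1, 514, 11), (0, 259, 2112), (0, 257, 2624),
  (2, 257, 11), (0, 520, 448), (0, 448, 520), (2, 448, 3), (0, 640, 1344),
  (0, 576, 1281), (0, 1088, 385), (0, 65, 386), (0, 1792, 17), (2, 1792, 4),
  (0, 1281, 640), (2, 1281, 9), (0, 131, 260), (2, 131, 2), (0, 385, 1026),
  (2, 385, 10), (0, 386, 65), (2, 386, 6)]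

theorem ops_ok : chB Bl opsB [387] = true := by decide +kernel

theorem ball_join (k : ℕ) (A0 : Finset ℕ) (hA : ∀ n ∈ A0, 16 ≤ n) (hc : A0.card = k) :
    Nonempty (Sp (jn A0 (dL Bl)) ≃ₜ
      Metric.closedBall (0 : EuclideanSpace ℝ (Fin (3 + k))) 1) := by
  obtain ⟨e1⟩ := ch_homeo A0 hA opsB Bl [387] ops_ok
  have h1 : jn A0 (dL [387]) = {dk 387 ∪ A0} := rfl
  rw [h1] at e1
  obtain ⟨e2⟩ := Pool.Agent.H933R3.simplex_ball (dk 387 ∪ A0) (3 + k) (by
    rw [card_union_of_disjoint, hc]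
    · have : (dk 387).card = 4 := by decide
      omega
    · rw [disjoint_left]
      intro x hx hx'
      have := hA x hx'
      have := (mem_dk.1 hx).1
      omega)
  exact ⟨e1.trans e2⟩

end Pool.Agent.H549LC
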