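import Mathlib
import Pool.Agent.H549LC.Chain
import Pool.Agent.H933R3.Defs

set_option autoImplicit false

/-!
# The join of the ball with a simplex is a non-evasive ball
-/

namespace Pool.Agent.H549LC

open Finset Pool.Agent.Helper175.NS Pool.Agent.H933R3

/-- the facet with mask `m`: all vertices `i < 11` in the mask `m` and all vertices `i ≥ 11` -/
def fB (n m : ℕ) : Finset (Fin n) := univ.filter (fun i => (i : ℕ) < 11 → m.testBit i = true)

theorem mem_fB {n m : ℕ} {i : Fin n} : i ∈ fB n m ↔ ((i : ℕ) < 11 → m.testBit i = true) := by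
  simp [fB]

/-- the join of the 3-ball with facets `Bl` and a simplex with `k` vertices -/
def KK (k : ℕ) : Finset (Finset (Fin (11 + k))) :=
  univ.filter (fun σ => ∃ m ∈ Bl, σ ⊆ fB (11 + k) m)

theorem mem_KK {k : ℕ} {σ : Finset (Fin (11 + k))} : σ ∈ KK k ↔ ∃ m ∈ Bl, σ ⊆ fB (11 + k) m := by
  simp [KK]

theorem isCx_KK (k : ℕ) : IsCx (KK k) := by
  refine ⟨mem_KK.2 ⟨27, by decide, empty_subset _⟩, fun σ hσ τ hτ => ?_⟩
  obtain ⟨m, hm, h⟩ := mem_KK.1 hσ
  exact mem_KK.2 ⟨m, hm, hτ.trans h⟩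

/-- the facets -/
def FF (k : ℕ) : Finset (Finset (Fin (11 + k))) := (Bl.map (fB (11 + k))).toFinset

theorem mem_FF {k : ℕ} {F : Finset (Fin (11 + k))} : F ∈ FF k ↔ ∃ m ∈ Bl, fB (11 + k) m = F := by
  rw [FF, List.mem_toFinset, List.mem_map]

theorem realization_KK (k : ℕ) : realization (KK k) = Sp (FF k) := by
  ext x
  constructor
  · rintro ⟨h0, h1, σ, hσ, h2⟩
    obtain ⟨m, hm, h3⟩ := mem_KK.1 hσ
    refine ⟨h0, fB (11 + k) m, mem_FF.2 ⟨m, hm, rfl⟩, fun i hi => h2 i (fun h => hi (h3 h)), ?_⟩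
    rw [← h1]
    exact sum_subset (subset_univ _) (fun i _ hi => h2 i (fun h => hi (h3 h)))
  · rintro ⟨h0, F, hF, h1, h2⟩
    obtain ⟨m, hm, rfl⟩ := mem_FF.1 hF
    refine ⟨h0, ?_, fB (11 + k) m, mem_KK.2 ⟨m, hm, Subset.refl _⟩, h1⟩
    rw [← h2]
    exact (sum_subset (subset_univ _) (fun i _ hi => h1 i hi)).symm

/-- renaming of the vertices -/
def ren (k : ℕ) (i : Fin (11 + k)) : ℕ := if (i : ℕ) < 11 then i else i + 5

theorem ren_injective (k : ℕ) : Function.Injective (ren k) := by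
  intro i j h
  unfold ren at h
  apply Fin.ext
  split_ifs at h <;> omega

/-- the labels of the vertices of the simplex -/
def A0 (k : ℕ) : Finset ℕ := (range k).map ⟨fun i => i + 16, fun _ _ h => by simpa using h⟩

theorem mem_A0 {k n : ℕ} : n ∈ A0 k ↔ 16 ≤ n ∧ n < 16 + k := by
  rw [A0, mem_map]
  constructor
  · rintro ⟨i, hi, rfl⟩
    rw [mem_range] at hi
    show 16 ≤ i + 16 ∧ i + 16 < 16 + k
    omega
  · rintro ⟨h1, h2⟩
    refine ⟨n - 16, mem_range.2 (by omega), ?_⟩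
    show n - 16 + 16 = n
    omega

theorem Bl_small : ∀ m ∈ Bl, m < 2 ^ 11 := by decide

theorem low_bit {m i : ℕ} (hm : m < 2 ^ 11) (h : m.testBit i = true) : i < 11 := by
  by_contra h6
  rw [Nat.testBit_eq_false_of_lt (hm.trans_le (Nat.pow_le_pow_right (by norm_num) (by omega)))] at h
  exact absurd h (by decide)

theorem image_ren {k m : ℕ} (hm : m ∈ Bl) : (fB (11 + k) m).image (ren k) = dk m ∪ A0 k := by
  have hm' := Bl_small m hm
  ext n
  rw [mem_image, mem_union, mem_dk, mem_A0]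
  constructor
  · rintro ⟨i, hi, rfl⟩
    rw [mem_fB] at hi
    have := i.2
    unfold ren
    split_ifs with h
    · exact Or.inl ⟨by omega, hi h⟩
    · exact Or.inr (by omega)
  · rintro (⟨h1, h2⟩ | ⟨h1, h2⟩)
    · have h3 := low_bit hm' h2
      refine ⟨⟨n, by omega⟩, mem_fB.2 (fun _ => h2), ?_⟩
      unfold ren
      exact if_pos h3
    · refine ⟨⟨n - 5, by omega⟩, mem_fB.2 (fun h => ?_), ?_⟩
      · have : n - 5 < 11 := h
        omega
      · unfold ren
        rw [if_neg (show ¬ (n - 5 < 11) by omega)]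
        show n - 5 + 5 = n
        omega

theorem image_FF (k : ℕ) : (FF k).image (fun F => F.image (ren k)) = jn (A0 k) (dL Bl) := by
  ext A
  rw [mem_image, mem_jn]
  constructor
  · rintro ⟨F, hF, rfl⟩
    obtain ⟨m, hm, rfl⟩ := mem_FF.1 hF
    exact ⟨dk m, mem_dL.2 ⟨m, hm, rfl⟩, (image_ren hm).symm⟩
  · rintro ⟨F, hF, rfl⟩
    obtain ⟨m, hm, rfl⟩ := mem_dL.1 hF
    exact ⟨fB (11 + k) m, mem_FF.2 ⟨m, hm, rfl⟩, image_ren hm⟩

theorem isBall_KK (k : ℕ) : IsBall (3 + k) (KK k) := by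
  obtain ⟨e1⟩ := relabel_homeo (FF k) (ren k) univ (fun F _ => subset_univ F)
    (ren_injective k).injOn
  rw [image_FF] at e1
  obtain ⟨e2⟩ := ball_join k (A0 k) (fun n hn => (mem_A0.1 hn).1) (by rw [A0, card_map, card_range])
  unfold IsBall
  rw [realization_KK]
  exact ⟨e1.symm.trans e2⟩

/-! ### cones are non-evasive -/

variable {V : Type} [DecidableEq V]

theorem cone_nonEvasive (v0 : V) : ∀ (c : ℕ) (K : Finset (Finset V)), K.card ≤ c → IsCx K →
    {v0} ∈ K → (∀ σ ∈ K, insert v0 σ ∈ K) → NonEvasive K := by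
  intro c
  induction c with
  | zero =>
    intro K hc hK _ _
    rw [card_eq_zero.1 (Nat.le_zero.1 hc)] at hK
    exact absurd hK.1 (notMem_empty _)
  | succ c ih =>
    intro K hc hK h0 hcone
    by_cases h : ∃ v, v ≠ v0 ∧ {v} ∈ K
    · obtain ⟨v, hv, hvK⟩ := h
      have hsub : ∀ L : Finset (Finset V), L ⊆ K → {v} ∉ L → L.card ≤ c := by
        intro L hL hvL
        have h1 : L ⊂ K := ⟨hL, fun h2 => hvL (h2 hvK)⟩
        have := card_lt_card h1
        omega
      have hv0 : v ∉ ({v0} : Finset V) := by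
        rw [mem_singleton]
        exact hv
      have hmd : ∀ σ, σ ∈ del K v ↔ σ ∈ K ∧ v ∉ σ := fun σ => by simp [del]
      have hml : ∀ σ, σ ∈ link K v ↔ σ ∈ K ∧ v ∉ σ ∧ insert v σ ∈ K := fun σ => by simp [link]
      refine NonEvasive.step K v hvK (ih _ (hsub _ ?_ ?_) ?_ ?_ ?_) (ih _ (hsub _ ?_ ?_) ?_ ?_ ?_)
      · intro σ hσ
        exact ((hmd σ).1 hσ).1
      · intro h1
        exact ((hmd _).1 h1).2 (mem_singleton_self v)
      · refine ⟨(hmd _).2 ⟨hK.1, notMem_empty _⟩, fun σ hσ τ hτ => ?_⟩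
        obtain ⟨h1, h2⟩ := (hmd _).1 hσ
        exact (hmd _).2 ⟨hK.2 _ h1 _ hτ, fun h3 => h2 (hτ h3)⟩
      · exact (hmd _).2 ⟨h0, hv0⟩
      · intro σ hσ
        obtain ⟨h1, h2⟩ := (hmd _).1 hσ
        refine (hmd _).2 ⟨hcone _ h1, ?_⟩
        rw [mem_insert, not_or]
        exact ⟨hv, h2⟩
      · intro σ hσ
        exact ((hml σ).1 hσ).1
      · intro h1
        exact ((hml _).1 h1).2.1 (mem_singleton_self v)
      · refine ⟨(hml _).2 ⟨hK.1, notMem_empty _, by simpa using hvK⟩, fun σ hσ τ hτ => ?_⟩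
        obtain ⟨h1, h2, h3⟩ := (hml _).1 hσ
        exact (hml _).2 ⟨hK.2 _ h1 _ hτ, fun h4 => h2 (hτ h4),
          hK.2 _ h3 _ (insert_subset_insert _ hτ)⟩
      · refine (hml _).2 ⟨h0, hv0, ?_⟩
        have h1 := hcone _ hvK
        have h2 : insert v ({v0} : Finset V) = insert v0 {v} := by
          rw [pair_comm]
        rw [h2]
        exact h1
      · intro σ hσ
        obtain ⟨h1, h2, h3⟩ := (hml _).1 hσ
        refine (hml _).2 ⟨hcone _ h1, ?_, ?_⟩
        · rw [mem_insert, not_or]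
          exact ⟨hv, h2⟩
        · rw [insert_comm]
          exact hcone _ h3
    · push Not at h
      have h1 : K = {∅, {v0}} := by
        ext σ
        rw [mem_insert, mem_singleton]
        constructor
        · intro hσ
          have h2 : σ ⊆ {v0} := by
            intro x hx
            rw [mem_singleton]
            by_contra hne
            exact h x hne (hK.2 _ hσ _ (singleton_subset_iff.2 hx))
          exact subset_singleton_iff.1 h2
        · rintro (rfl | rfl)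
          · exact hK.1
          · exact h0
      rw [h1]
      exact NonEvasive.point v0

theorem nonEvasive_KK (k : ℕ) : NonEvasive (KK (k + 1)) := by
  have hv : ∀ m, (⟨11, by omega⟩ : Fin (11 + (k + 1))) ∈ fB (11 + (k + 1)) m := by
    intro m
    rw [mem_fB]
    intro h
    exact absurd h (by simp)
  refine cone_nonEvasive (⟨11, by omega⟩ : Fin (11 + (k + 1))) _ _ le_rfl (isCx_KK _) ?_ ?_
  · exact mem_KK.2 ⟨27, by decide, singleton_subset_iff.2 (hv 27)⟩
  · intro σ hσ
    obtain ⟨m, hm, h⟩ := mem_KK.1 hσ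
    exact mem_KK.2 ⟨m, hm, insert_subset (hv m) h⟩

end Pool.Agent.H549LC
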