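import Mathlib
import Pool.Agent.H549LC.Join
import Pool.Agent.Y364.E3.Tree

set_option autoImplicit false

/-!
# The join of the ball with a simplex is not locally constructible
-/

namespace Pool.Agent.H549LC

open Finset Pool.Agent.H933R3 Pool.Agent.Y364.E3

/-! ### masks -/

theorem card_fB (k m : ℕ) : (fB (11 + k) m).card = (fB 11 m).card + k := by
  unfold fB
  rw [card_filter, card_filter, Fin.sum_univ_add]
  congr 1
  have : ∀ i : Fin k, (if ((Fin.natAdd 11 i : Fin (11 + k)) : ℕ) < 11 →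
      m.testBit (Fin.natAdd 11 i : Fin (11 + k)) = true then 1 else 0) = 1 := by
    intro i
    rw [if_pos]
    intro h
    exact absurd h (by simp)
  rw [sum_congr rfl (fun i _ => this i)]
  simp

theorem fB_inter (n m m' : ℕ) : fB n m ∩ fB n m' = fB n (m &&& m') := by
  ext i
  rw [mem_inter, mem_fB, mem_fB, mem_fB, Nat.testBit_land, Bool.and_eq_true]
  tauto

theorem fB_sub {k m m' : ℕ} (hm : m < 2 ^ 11) :
    fB (11 + k) m ⊆ fB (11 + k) m' ↔ m &&& m' = m := by
  constructor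
  · intro h
    apply Nat.eq_of_testBit_eq
    intro i
    rw [Nat.testBit_land]
    cases h1 : m.testBit i with
    | false => simp
    | true =>
      have h2 := low_bit hm h1
      have h3 : (⟨i, by omega⟩ : Fin (11 + k)) ∈ fB (11 + k) m := mem_fB.2 (fun _ => h1)
      have h4 := mem_fB.1 (h h3) h2
      simp only [Bool.true_and]
      exact h4
  · intro h i hi
    rw [mem_fB] at hi ⊢
    intro h1
    have h2 := hi h1
    rw [← h, Nat.testBit_land, Bool.and_eq_true] at h2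
    exact h2.2

theorem fB_inj {k m m' : ℕ} (hm : m < 2 ^ 11) (hm' : m' < 2 ^ 11)
    (h : fB (11 + k) m = fB (11 + k) m') : m = m' := by
  have h1 := (fB_sub (k := k) hm).1 h.le
  have h2 := (fB_sub (k := k) hm').1 h.ge
  rw [Nat.land_comm] at h2
  rw [← h1, h2]

theorem pair_ok : ∀ m ∈ Bl, ∀ m' ∈ Bl, m ≠ m' → (fB 11 (m &&& m')).card ≤ 3 ∧
    ((fB 11 (m &&& m')).card = 3 → m &&& m' ∈ ITl) := by decide +kernel

theorem itl_ok : ∀ t ∈ ITl, t < 2 ^ 11 ∧ (fB 11 t).card = 3 ∧ t ∉ SBl := by decide +kernel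

theorem sbl_ok : ∀ t ∈ SBl, t < 2 ^ 11 := by decide +kernel

theorem Bl_inj : ∀ m ∈ Bl, ∀ m' ∈ Bl, m &&& m' = m → m = m' := by decide +kernel

theorem other_ok : ∀ t ∈ ITl, ∀ a ∈ SBl, a &&& t = a → ∃ a' ∈ SBl, a' ≠ a ∧ a' &&& t = a' := by
  decide +kernel

/-- the interior ridges -/
def RI (k : ℕ) : Finset (Finset (Fin (11 + k))) := (ITl.map (fB (11 + k))).toFinset

theorem mem_RI {k : ℕ} {R : Finset (Fin (11 + k))} : R ∈ RI k ↔ ∃ t ∈ ITl, fB (11 + k) t = R := by
  rw [RI, List.mem_toFinset, List.mem_map]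

/-- the interior faces of codimension two -/
def SF (k : ℕ) : Finset (Finset (Fin (11 + k))) := (SBl.map (fB (11 + k))).toFinset

theorem mem_SF {k : ℕ} {R : Finset (Fin (11 + k))} : R ∈ SF k ↔ ∃ t ∈ SBl, fB (11 + k) t = R := by
  rw [SF, List.mem_toFinset, List.mem_map]

theorem card_map_fB (k : ℕ) (l : List ℕ) (h1 : l.Nodup) (h2 : ∀ m ∈ l, m < 2 ^ 11) :
    ((l.map (fB (11 + k))).toFinset).card = l.length := by
  rw [List.toFinset_card_of_nodup, List.length_map]
  exact List.Nodup.map_on (fun x hx y hy h => fB_inj (h2 x hx) (h2 y hy) h) h1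

theorem card_RI (k : ℕ) : (RI k).card = 61 := by
  rw [RI, card_map_fB k ITl (by decide) (fun t ht => (itl_ok t ht).1)]
  rfl

theorem card_SF (k : ℕ) : (SF k).card = 27 := by
  rw [SF, card_map_fB k SBl (by decide) sbl_ok]
  rfl

theorem card_FF (k : ℕ) : (FF k).card = 35 := by
  rw [FF, card_map_fB k Bl (by decide) Bl_small]
  rfl

theorem facet_iff {k : ℕ} {F : Finset (Fin (11 + k))} : IsFacet (KK k) F ↔ F ∈ FF k := by
  rw [mem_FF]
  constructor
  · rintro ⟨h1, h2⟩
    obtain ⟨m, hm, h3⟩ := mem_KK.1 h1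
    exact ⟨m, hm, h2 _ (mem_KK.2 ⟨m, hm, Subset.refl _⟩) h3⟩
  · rintro ⟨m, hm, rfl⟩
    refine ⟨mem_KK.2 ⟨m, hm, Subset.refl _⟩, fun G hG h => ?_⟩
    obtain ⟨m', hm', h1⟩ := mem_KK.1 hG
    have h2 := Bl_inj m hm m' hm' ((fB_sub (Bl_small m hm)).1 (h.trans h1))
    subst h2
    exact Subset.antisymm h1 h

theorem ridge {k m m' : ℕ} (hm : m ∈ Bl) (hm' : m' ∈ Bl) (hne : m ≠ m')
    {R : Finset (Fin (11 + k))} (hR : R.card = 3 + k) (h1 : R ⊆ fB (11 + k) m)
    (h2 : R ⊆ fB (11 + k) m') : m &&& m' ∈ ITl ∧ R = fB (11 + k) (m &&& m') := by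
  have h3 : R ⊆ fB (11 + k) (m &&& m') := by
    rw [← fB_inter]
    exact subset_inter h1 h2
  obtain ⟨h4, h5⟩ := pair_ok m hm m' hm' hne
  have h6 := card_fB k (m &&& m')
  have h7 := card_le_card h3
  exact ⟨h5 (by omega), eq_of_subset_of_card_le h3 (by omega)⟩

theorem card_of_RI {k : ℕ} {R : Finset (Fin (11 + k))} (h : R ∈ RI k) : R.card = 3 + k := by
  obtain ⟨t, ht, rfl⟩ := mem_RI.1 h
  rw [card_fB, (itl_ok t ht).2.1]

theorem tree_inv {k : ℕ} {𝓕 T : Finset (Finset (Fin (11 + k)))}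
    (h : TreeStage (3 + k) (KK k) 𝓕 T) : 𝓕 ⊆ FF k ∧ T ⊆ RI k ∧ T.card + 1 = 𝓕.card := by
  induction h with
  | start F hF =>
    exact ⟨singleton_subset_iff.2 (facet_iff.1 hF), empty_subset _, by simp⟩
  | attach 𝓕 T F F' R h hF hF' hn hR h1 h2 hT ih =>
    obtain ⟨i1, i2, i3⟩ := ih
    have hF'' := facet_iff.1 hF'
    refine ⟨insert_subset hF'' i1, insert_subset ?_ i2, ?_⟩
    · obtain ⟨m, hm, rfl⟩ := mem_FF.1 (i1 hF)
      obtain ⟨m', hm', rfl⟩ := mem_FF.1 hF''
      have hne : m ≠ m' := by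
        rintro rfl
        exact hn hF
      obtain ⟨h3, h4⟩ := ridge hm hm' hne hR h1 h2
      exact mem_RI.2 ⟨_, h3, h4.symm⟩
    · rw [card_insert_of_notMem hT, card_insert_of_notMem hn, i3]

/-! ### separation in the stars -/

/-- growing a set of facets -/
def clo (st rm : List ℕ) : ℕ → List ℕ → List ℕ
  | 0, s => s
  | j + 1, s => clo st rm j (s ++ st.filter (fun q => !(s.contains q) &&
      s.any (fun p => ITl.contains (p &&& q) && !(rm.contains (p &&& q)))))

/-- `m` and `m'` are separated in the star of `a` by the triangles in `rm` -/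
def sep (m m' a : ℕ) (rm : List ℕ) : Bool :=
  (clo (Bl.filter (fun q => a &&& q == a)) rm 8 [m]).contains m &&
  !((clo (Bl.filter (fun q => a &&& q == a)) rm 8 [m]).contains m') &&
  (clo (Bl.filter (fun q => a &&& q == a)) rm 8 [m]).all (fun p =>
    (Bl.filter (fun q => a &&& q == a)).all (fun q =>
      (clo (Bl.filter (fun q => a &&& q == a)) rm 8 [m]).contains q ||
      !(ITl.contains (p &&& q)) || rm.contains (p &&& q)))

theorem sep_sound {k m m' a : ℕ} {rm : List ℕ} {𝓕 G : Finset (Finset (Fin (11 + k)))}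
    {A : Finset (Fin (11 + k))} (h𝓕 : 𝓕 ⊆ FF k) (hG : G ⊆ RI k)
    (hrm : ∀ r ∈ rm, fB (11 + k) r ∉ G) (hA : ∀ q, A ⊆ fB (11 + k) q → a &&& q = a)
    (hm : m ∈ Bl) (hm' : m' ∈ Bl) (hs : SameFace 𝓕 G A (fB (11 + k) m) (fB (11 + k) m'))
    (h : sep m m' a rm = true) : False := by
  obtain ⟨X, hX⟩ : ∃ X, X = clo (Bl.filter (fun q => a &&& q == a)) rm 8 [m] := ⟨_, rfl⟩
  unfold sep at h
  rw [← hX] at h
  simp only [Bool.and_eq_true, Bool.not_eq_true', List.all_eq_true, Bool.or_eq_true,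
    List.contains_iff_mem, List.mem_filter, beq_iff_eq] at h
  obtain ⟨⟨h1, h2⟩, h3⟩ := h
  have key : ∀ Y, SameFace 𝓕 G A (fB (11 + k) m) Y → ∃ q ∈ Bl, fB (11 + k) q = Y ∧ q ∈ X := by
    intro Y hY
    unfold SameFace at hY
    induction hY with
    | refl => exact ⟨m, hm, rfl, h1⟩
    | tail _ hst ih =>
      obtain ⟨p, hp, hpY, hpX⟩ := ih
      obtain ⟨hY𝓕, hZ𝓕, R, hRG, hAR, hRY, hRZ⟩ := hst
      obtain ⟨q, hq, rfl⟩ := mem_FF.1 (h𝓕 hZ𝓕)
      refine ⟨q, hq, rfl, ?_⟩
      by_cases hpq : p = q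
      · rw [← hpq]; exact hpX
      · subst hpY
        obtain ⟨h4, h5⟩ := ridge hp hq hpq (card_of_RI (hG hRG)) hRY hRZ
        rcases h3 p hpX q ⟨hq, hA q (hAR.trans hRZ)⟩ with (h6 | h6) | h6
        · exact h6
        · rw [← Bool.not_eq_true, List.contains_iff_mem] at h6
          exact absurd h4 h6
        · exact absurd (h5 ▸ hRG) (hrm _ h6)
  obtain ⟨q, hq, h4, h5⟩ := key _ hs
  have h6 := fB_inj (Bl_small q hq) (Bl_small m' hm') h4
  subst h6
  rw [← Bool.not_eq_true, List.contains_iff_mem] at h2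
  exact h2 h5

/-- the edges of a triangle -/
def edg (t : ℕ) : List ℕ := ((List.range 11).filter (fun x => t.testBit x)).map (fun x => t ^^^ 2 ^ x)

/-- the check for two facets -/
def okT (m m' : ℕ) : Bool :=
  (m == m') || !(ITl.contains (m &&& m')) || ((m &&& m') :: edg (m &&& m')).all (fun a =>
    if SBl.contains a then
      ITl.all (fun t' => (t' == (m &&& m')) || !(a &&& t' == a) || sep m m' a [m &&& m', t'])
    else sep m m' a [m &&& m'])

theorem check : ∀ m ∈ Bl, ∀ m' ∈ Bl, okT m m' = true := by decide +kernel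

/-- the low part of a face of codimension one of a ridge -/
theorem low_part {k t : ℕ} (ht : t < 2 ^ 11) {A : Finset (Fin (11 + k))}
    (hA : A ⊆ fB (11 + k) t) (hc : A.card + 1 = (fB (11 + k) t).card) :
    ∃ a, (a = t ∨ a ∈ edg t) ∧ (∀ q, A ⊆ fB (11 + k) q ↔ a &&& q = a) ∧
      (a ≠ t → A = fB (11 + k) a) := by
  obtain ⟨x, hx⟩ : (fB (11 + k) t \ A).Nonempty := by
    rw [← card_pos, card_sdiff_of_subset hA]
    omega
  rw [mem_sdiff] at hx
  have hAe : A = (fB (11 + k) t).erase x := by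
    apply eq_of_subset_of_card_le
    · intro y hy
      rw [mem_erase]
      exact ⟨fun h => hx.2 (h ▸ hy), hA hy⟩
    · rw [card_erase_of_mem hx.1]
      omega
  by_cases h11 : (x : ℕ) < 11
  · have hxt : t.testBit x = true := mem_fB.1 hx.1 h11
    have h1 : A = fB (11 + k) (t ^^^ 2 ^ (x : ℕ)) := by
      rw [hAe]
      ext i
      rw [mem_erase, mem_fB, mem_fB, Nat.testBit_xor, Nat.testBit_two_pow]
      by_cases hi : i = x
      · subst hi
        simp [hxt, h11]
      · have h2 : (x : ℕ) ≠ (i : ℕ) := fun h => hi (Fin.ext h.symm)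
        simp [hi, h2]
    have h2 : t ^^^ 2 ^ (x : ℕ) < 2 ^ 11 :=
      Nat.xor_lt_two_pow ht (Nat.pow_lt_pow_right (by norm_num) h11)
    refine ⟨t ^^^ 2 ^ (x : ℕ), Or.inr ?_, fun q => ?_, fun _ => h1⟩
    · rw [edg, List.mem_map]
      exact ⟨x, List.mem_filter.2 ⟨List.mem_range.2 h11, hxt⟩, rfl⟩
    · rw [h1, fB_sub h2]
  · refine ⟨t, Or.inl rfl, fun q => ?_, fun h => absurd rfl h⟩
    constructor
    · intro h
      apply Nat.eq_of_testBit_eq
      intro i
      rw [Nat.testBit_land]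
      cases h1 : t.testBit i with
      | false => simp
      | true =>
        have h2 := low_bit ht h1
        have h3 : (⟨i, by omega⟩ : Fin (11 + k)) ∈ A := by
          rw [hAe, mem_erase]
          refine ⟨fun h => h11 ?_, mem_fB.2 (fun _ => h1)⟩
          rw [← h]
          exact h2
        have h4 := mem_fB.1 (h h3) h2
        simp only [Bool.true_and]
        exact h4
    · intro h
      exact hA.trans ((fB_sub ht).2 h)

theorem glue_inv {k : ℕ} {𝓕 T G : Finset (Finset (Fin (11 + k)))} (h𝓕 : 𝓕 ⊆ FF k)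
    (hT : T ⊆ RI k) (h : GlueStage (3 + k) 𝓕 T G) : G ⊆ RI k ∧ ∃ C ⊆ SF k,
      G.card = T.card + C.card ∧ C ≠ SF k ∧ ∀ A ∈ C, ∀ R ∈ RI k, A ⊆ R → R ∈ G := by
  induction h with
  | start =>
    refine ⟨hT, ∅, empty_subset _, by simp, ?_, fun A hA => absurd hA (notMem_empty _)⟩
    intro h
    have := card_SF k
    rw [← h, card_empty] at this
    omega
  | glue G F F' R A h hF hF' hne hR h1 h2 hG hA hAR hs ih =>
    obtain ⟨i1, C, i2, i3, i4, i5⟩ := ih
    obtain ⟨m, hm, rfl⟩ := mem_FF.1 (h𝓕 hF)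
    obtain ⟨m', hm', rfl⟩ := mem_FF.1 (h𝓕 hF')
    have hmm : m ≠ m' := fun h => hne (by rw [h])
    obtain ⟨ht, hRt⟩ := ridge hm hm' hmm hR h1 h2
    obtain ⟨t, htd⟩ : ∃ t, t = m &&& m' := ⟨_, rfl⟩
    rw [← htd] at ht hRt
    subst hRt
    have hRI : fB (11 + k) t ∈ RI k := mem_RI.2 ⟨t, ht, rfl⟩
    obtain ⟨ht1, ht2, ht3⟩ := itl_ok t ht
    obtain ⟨a, ha1, ha2, ha3⟩ := low_part ht1 hAR (by omega)
    have hck := check m hm m' hm'
    unfold okT at hck
    rw [← htd] at hck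
    have hc1 : ITl.contains t = true := List.contains_iff_mem.2 ht
    rw [hc1, beq_eq_false_iff_ne.2 hmm] at hck
    simp only [Bool.not_true, Bool.or_false, Bool.false_or] at hck
    rw [List.all_eq_true] at hck
    have hca := hck a (by
      rw [List.mem_cons]
      exact ha1)
    by_cases haS : a ∈ SBl
    · rw [if_pos (List.contains_iff_mem.2 haS), List.all_eq_true] at hca
      have hat : a ≠ t := fun h => ht3 (h ▸ haS)
      have hAa := ha3 hat
      subst hAa
      have hAS : fB (11 + k) a ∈ SF k := mem_SF.2 ⟨a, haS, rfl⟩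
      have hAC : fB (11 + k) a ∉ C := fun h => hG (i5 _ h _ hRI hAR)
      refine ⟨insert_subset hRI i1, insert (fB (11 + k) a) C, insert_subset hAS i2, ?_, ?_, ?_⟩
      · rw [card_insert_of_notMem hG, card_insert_of_notMem hAC, i3, add_assoc]
      · intro hE
        have hat' := (ha2 t).1 hAR
        obtain ⟨a', h3, h4, h5⟩ := other_ok t ht a haS hat'
        have h6 : fB (11 + k) a' ∈ insert (fB (11 + k) a) C := by
          rw [hE]
          exact mem_SF.2 ⟨a', h3, rfl⟩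
        rcases mem_insert.1 h6 with h7 | h7
        · exact h4 (fB_inj (sbl_ok a' h3) (sbl_ok a haS) h7)
        · exact hG (i5 _ h7 _ hRI ((fB_sub (sbl_ok a' h3)).2 h5))
      · intro B hB R' hR' hBR
        rcases mem_insert.1 hB with rfl | hB
        · obtain ⟨t', ht', rfl⟩ := mem_RI.1 hR'
          by_cases htt : t' = t
          · rw [htt]
            exact mem_insert_self _ _
          · apply mem_insert_of_mem
            by_contra hnG
            have hc2 := hca t' ht'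
            have h3 := (ha2 t').1 hBR
            rw [beq_eq_false_iff_ne.2 htt, h3, beq_self_eq_true] at hc2
            simp only [Bool.not_true, Bool.or_false, Bool.false_or] at hc2
            refine sep_sound h𝓕 i1 ?_ (fun q => (ha2 q).1) hm hm' hs hc2
            intro r hr
            rw [List.mem_cons, List.mem_singleton] at hr
            rcases hr with rfl | rfl
            · exact hG
            · exact hnG
        · exact mem_insert_of_mem (i5 _ hB _ hR' hBR)
    · rw [if_neg (fun h => haS (List.contains_iff_mem.1 h))] at hca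
      exfalso
      refine sep_sound h𝓕 i1 ?_ (fun q => (ha2 q).1) hm hm' hs hca
      intro r hr
      rw [List.mem_singleton] at hr
      rw [hr]
      exact hG

theorem exists_ridge {V : Type} [DecidableEq V] {𝓕 G : Finset (Finset V)} {A F F' : Finset V}
    (hne : F ≠ F') (h : SameFace 𝓕 G A F F') : ∃ R ∈ G, A ⊆ R := by
  unfold SameFace at h
  rcases Relation.ReflTransGen.cases_head h with h1 | ⟨Y, ⟨_, _, R, h2, h3, _⟩, _⟩
  · exact absurd h1 hne
  · exact ⟨R, h2, h3⟩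

theorem two_facets : ∀ t ∈ ITl, ∃ m ∈ Bl, ∃ m' ∈ Bl, m ≠ m' ∧ m &&& m' = t := by decide +kernel

/-- The join of the ball with a simplex with `k` vertices is not locally constructible. -/
theorem not_LC (k : ℕ) : ¬ IsTreeLC (3 + k) (KK k) := by
  rintro ⟨-, -, 𝓕, T, G, h1, h2, h3, h4⟩
  obtain ⟨t1, t2, t3⟩ := tree_inv h1
  obtain ⟨g1, C, g2, g3, g4, -⟩ := glue_inv t1 t2 h2
  have hF : 𝓕 = FF k := Subset.antisymm t1 (fun F hF => h3 F (facet_iff.2 hF))
  have hG : G = RI k := by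
    apply Subset.antisymm g1
    intro R hR
    obtain ⟨t, ht, rfl⟩ := mem_RI.1 hR
    obtain ⟨m, hm, m', hm', hne, hmm⟩ := two_facets t ht
    have s1 : fB (11 + k) t ⊆ fB (11 + k) m := by
      rw [← hmm, ← fB_inter]
      exact inter_subset_left
    have s2 : fB (11 + k) t ⊆ fB (11 + k) m' := by
      rw [← hmm, ← fB_inter]
      exact inter_subset_right
    have hd : fB (11 + k) m ≠ fB (11 + k) m' :=
      fun h => hne (fB_inj (Bl_small m hm) (Bl_small m' hm') h)
    obtain ⟨R', h5, h6⟩ := exists_ridge hd (h4 _ (mem_KK.2 ⟨m, hm, s1⟩) _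
      (hF ▸ mem_FF.2 ⟨m, hm, rfl⟩) _ (hF ▸ mem_FF.2 ⟨m', hm', rfl⟩) s1 s2)
    have h7 := card_of_RI (g1 h5)
    have h8 := card_of_RI hR
    rw [eq_of_subset_of_card_le h6 (by omega)]
    exact h5
  have c1 := card_RI k
  have c2 := card_SF k
  have c3 := card_FF k
  rw [← hG] at c1
  rw [← hF] at c3
  exact g4 (eq_of_subset_of_card_le g2 (by omega))

/-! ### purity -/

theorem Bl_card : ∀ m ∈ Bl, (fB 11 m).card = 4 := by decide +kernel

theorem two_ok : ∀ t ∈ ITl, ∀ x ∈ Bl, ∀ y ∈ Bl, t &&& x = t → t &&& y = t → x ≠ y →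
    ∀ z ∈ Bl, t &&& z = t → z = x ∨ z = y := by decide +kernel

theorem pure_KK (k : ℕ) : ∀ F, IsFacet (KK k) F → F.card = 3 + k + 1 := by
  intro F hF
  obtain ⟨m, hm, rfl⟩ := mem_FF.1 (facet_iff.1 hF)
  rw [card_fB, Bl_card m hm]
  omega

theorem atMostTwo_KK (k : ℕ) : AtMostTwo (3 + k) (KK k) := by
  intro R hR X Y Z hX hY hZ h1 h2 h3
  obtain ⟨x, hx, rfl⟩ := mem_FF.1 (facet_iff.1 hX)
  obtain ⟨y, hy, rfl⟩ := mem_FF.1 (facet_iff.1 hY)
  obtain ⟨z, hz, rfl⟩ := mem_FF.1 (facet_iff.1 hZ)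
  by_cases hxy : x = y
  · exact Or.inl (by rw [hxy])
  obtain ⟨h4, h5⟩ := ridge hx hy hxy hR h1 h2
  subst h5
  have ht := (itl_ok _ h4).1
  rcases two_ok _ h4 x hx y hy ((fB_sub ht).1 h1) ((fB_sub ht).1 h2) hxy z hz
    ((fB_sub ht).1 h3) with h | h
  · exact Or.inr (Or.inl (by rw [h]))
  · exact Or.inr (Or.inr (by rw [h]))

end Pool.Agent.H549LC
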